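import Pool.Agent.Helper81.XP.StB

set_option autoImplicit false

/-! Generic linear combinations. -/

namespace Pool.Agent.Helper3.XP

open Pool.Agent.Helper81.XP Finset

theorem st_GEN : ST_GEN := by
  classical
  intro k _ _ K _ _ ι S v hv
  let q : ι → Polynomial K := fun i => ∑ l : Fin 4, Polynomial.C (v i l) * Polynomial.X ^ (l : ℕ)
  have hcoeff : ∀ i (l : Fin 4), (q i).coeff (l : ℕ) = v i l := by
    intro i l
    simp only [q, Polynomial.finsetSum_coeff, Polynomial.coeff_C_mul_X_pow]
    rw [Finset.sum_eq_single l]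
    · simp
    · intro b _ hb
      rw [if_neg]
      intro h
      exact hb (Fin.ext h.symm)
    · intro h
      exact absurd (mem_univ l) h
  have heval : ∀ i (x : K), (q i).eval x = ∑ l : Fin 4, x ^ (l : ℕ) * v i l := by
    intro i x
    simp only [q, Polynomial.eval_finsetSum, Polynomial.eval_mul, Polynomial.eval_C,
      Polynomial.eval_pow, Polynomial.eval_X]
    exact Finset.sum_congr rfl fun l _ => mul_comm _ _
  have hq : ∀ i ∈ S, q i ≠ 0 := by
    intro i hi h0
    obtain ⟨l, hl⟩ := hv i hi
    apply hl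
    rw [← hcoeff i l, h0, Polynomial.coeff_zero]
  have hQ : ∏ i ∈ S, q i ≠ 0 := Finset.prod_ne_zero_iff.2 hq
  have hx : ∃ x : k, (∏ i ∈ S, q i).eval (algebraMap k K x) ≠ 0 := by
    by_contra hcon
    push Not at hcon
    apply hQ
    refine Polynomial.eq_zero_of_infinite_isRoot _
      (Set.Infinite.mono ?_ (Set.infinite_range_of_injective (algebraMap k K).injective))
    rintro _ ⟨x, rfl⟩
    exact hcon x
  obtain ⟨x, hx⟩ := hx
  refine ⟨fun l => x ^ (l : ℕ), fun i hi h0 => ?_⟩
  rw [Polynomial.eval_prod, Finset.prod_ne_zero_iff] at hx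
  apply hx i hi
  rw [heval, ← h0]
  exact Finset.sum_congr rfl fun l _ => by rw [map_pow]

end Pool.Agent.Helper3.XP
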