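import Pool.Agent.Helper81.XP.StB

set_option autoImplicit false

/-! Linear changes of coordinates. -/

namespace Pool.Agent.Helper3.XP

open Pool.Agent.Helper81.XP Finset

/-! ### evaluation -/

theorem LIA_ev {k : Type} [Field k] {K : Type} [CommRing K] [Algebra k K]
    (M : Matrix (Fin 3) (Fin 3) k) (a b c : K) (F : MvPolynomial (Fin 3) k) :
    ev3 a b c (phi M F) = MvPolynomial.aeval (mv M a b c) F := by
  induction F using MvPolynomial.induction_on with
  | C r =>
    rw [MvPolynomial.aeval_C]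
    simp [phi, ev3, ev2]
  | add p q hp hq =>
    rw [map_add, map_add, hp, hq, map_add]
  | mul_X p i hp =>
    rw [map_mul, map_mul, hp, map_mul, MvPolynomial.aeval_X]
    congr 1
    simp [phi, ev3, ev2, lf, mv]

theorem LIA_ev_C {k : Type} [Field k] {K : Type} [CommRing K] [Algebra k K] (a b c : K) (r : k) :
    ev3 a b c (Polynomial.C (Polynomial.C (Polynomial.C r))) = algebraMap k K r := by
  simp [ev3, ev2]

/-- linear forms for the inverse -/
noncomputable def LIAl {k : Type} [Field k] (N : Matrix (Fin 3) (Fin 3) k) (i : Fin 3) :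
    MvPolynomial (Fin 3) k :=
  MvPolynomial.C (N i 0) * MvPolynomial.X 0 + MvPolynomial.C (N i 1) * MvPolynomial.X 1 +
    MvPolynomial.C (N i 2) * MvPolynomial.X 2

theorem LIA_inj {k : Type} [Field k] (M N : Matrix (Fin 3) (Fin 3) k) (hMN : M * N = 1)
    (F : MvPolynomial (Fin 3) k) :
    ev3 (LIAl N 0) (LIAl N 1) (LIAl N 2) (phi M F) = F := by
  rw [LIA_ev]
  have h : mv M (LIAl N 0) (LIAl N 1) (LIAl N 2) = (MvPolynomial.X : Fin 3 → _) := by
    funext i
    have hij : ∀ j, M i 0 * N 0 j + M i 1 * N 1 j + M i 2 * N 2 j =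
        (1 : Matrix (Fin 3) (Fin 3) k) i j := by
      intro j
      rw [← hMN, Matrix.mul_apply, Fin.sum_univ_three]
    have h1 : mv M (LIAl N 0) (LIAl N 1) (LIAl N 2) i =
        MvPolynomial.C (M i 0 * N 0 0 + M i 1 * N 1 0 + M i 2 * N 2 0) * MvPolynomial.X 0 +
        MvPolynomial.C (M i 0 * N 0 1 + M i 1 * N 1 1 + M i 2 * N 2 1) * MvPolynomial.X 1 +
        MvPolynomial.C (M i 0 * N 0 2 + M i 1 * N 1 2 + M i 2 * N 2 2) * MvPolynomial.X 2 := by
      unfold mv LIAl
      rw [MvPolynomial.algebraMap_eq]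
      simp only [map_add, map_mul]
      ring
    have key : ∀ i : Fin 3, (MvPolynomial.C ((1 : Matrix (Fin 3) (Fin 3) k) i 0) *
        MvPolynomial.X 0 + MvPolynomial.C ((1 : Matrix (Fin 3) (Fin 3) k) i 1) *
        MvPolynomial.X 1 + MvPolynomial.C ((1 : Matrix (Fin 3) (Fin 3) k) i 2) *
        MvPolynomial.X 2 : MvPolynomial (Fin 3) k) = MvPolynomial.X i := by
      intro i
      fin_cases i <;> simp [Matrix.one_apply]
    rw [h1, hij, hij, hij, key]
  rw [h, MvPolynomial.aeval_X_left, AlgHom.id_apply]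

theorem LIA_surj {k : Type} [Field k] (M N : Matrix (Fin 3) (Fin 3) k) (hNM : N * M = 1) :
    (phi M).comp (ev3 (LIAl N 0) (LIAl N 1) (LIAl N 2)) = RingHom.id (T3 k) := by
  have hij : ∀ i j, N i 0 * M 0 j + N i 1 * M 1 j + N i 2 * M 2 j =
      (1 : Matrix (Fin 3) (Fin 3) k) i j := by
    intro i j
    rw [← hNM, Matrix.mul_apply, Fin.sum_univ_three]
  have hl : ∀ i, phi M (LIAl N i) =
      Polynomial.C (Polynomial.C (Polynomial.C (N i 0 * M 0 0 + N i 1 * M 1 0 + N i 2 * M 2 0) *
        Polynomial.X)) +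
      Polynomial.C (Polynomial.C (Polynomial.C (N i 0 * M 0 1 + N i 1 * M 1 1 + N i 2 * M 2 1)) *
        Polynomial.X) +
      Polynomial.C (Polynomial.C (Polynomial.C (N i 0 * M 0 2 + N i 1 * M 1 2 + N i 2 * M 2 2))) *
        Polynomial.X := by
    intro i
    unfold LIAl phi
    simp only [map_add, map_mul, MvPolynomial.eval₂Hom_C, MvPolynomial.eval₂Hom_X',
      RingHom.comp_apply, lf]
    ring
  have hC : ∀ r : k, phi M (MvPolynomial.C r) =
      Polynomial.C (Polynomial.C (Polynomial.C r)) := by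
    intro r
    simp [phi]
  refine Polynomial.ringHom_ext' (Polynomial.ringHom_ext' (Polynomial.ringHom_ext' ?_ ?_) ?_) ?_
  · ext1 r
    show phi M (ev3 _ _ _ (Polynomial.C (Polynomial.C (Polynomial.C r)))) = _
    rw [LIA_ev_C, MvPolynomial.algebraMap_eq, hC]
    rfl
  · show phi M (ev3 _ _ _ (Polynomial.C (Polynomial.C (Polynomial.X : Polynomial k)))) = _
    have : ev3 (LIAl N 0) (LIAl N 1) (LIAl N 2)
        (Polynomial.C (Polynomial.C (Polynomial.X : Polynomial k))) = LIAl N 0 := by
      simp [ev3, ev2]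
    rw [this, hl, hij, hij, hij]
    simp
  · show phi M (ev3 _ _ _ (Polynomial.C (Polynomial.X : T2 k))) = _
    have : ev3 (LIAl N 0) (LIAl N 1) (LIAl N 2)
        (Polynomial.C (Polynomial.X : T2 k)) = LIAl N 1 := by
      simp [ev3, ev2]
    rw [this, hl, hij, hij, hij]
    simp
  · show phi M (ev3 _ _ _ (Polynomial.X : T3 k)) = _
    have : ev3 (LIAl N 0) (LIAl N 1) (LIAl N 2)
        (Polynomial.X : T3 k) = LIAl N 2 := by
      simp [ev3, ev2]
    rw [this, hl, hij, hij, hij]
    simp

/-! ### degrees -/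

theorem LIA_TD_mul {k : Type} [Field k] {m n : ℕ} {A B : T2 k} (hA : TD2 m A) (hB : TD2 n B) :
    TD2 (m + n) (A * B) := by
  intro i j h
  rw [Polynomial.coeff_mul, Polynomial.finsetSum_coeff] at h
  obtain ⟨⟨a, b⟩, hab, h1⟩ := Finset.exists_ne_zero_of_sum_ne_zero h
  rw [Polynomial.coeff_mul] at h1
  obtain ⟨⟨a', b'⟩, hab', h2⟩ := Finset.exists_ne_zero_of_sum_ne_zero h1
  rw [Finset.HasAntidiagonal.mem_antidiagonal] at hab hab'
  have h3 := hA a a' (left_ne_zero_of_mul h2)
  have h4 := hB b b' (right_ne_zero_of_mul h2)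
  simp only at hab hab'
  omega

theorem LIA_TD_sum {k : Type} [Field k] {ι : Type} {m : ℕ} (s : Finset ι) (A : ι → T2 k)
    (hA : ∀ i ∈ s, TD2 m (A i)) : TD2 m (∑ i ∈ s, A i) := by
  intro i j h
  rw [Polynomial.finsetSum_coeff, Polynomial.finsetSum_coeff] at h
  obtain ⟨a, ha, h1⟩ := Finset.exists_ne_zero_of_sum_ne_zero h
  exact hA a ha i j h1

theorem LIA_TD_mono {k : Type} [Field k] {m n : ℕ} (h : m ≤ n) {A : T2 k} (hA : TD2 m A) :
    TD2 n A := fun i j hij => (hA i j hij).trans h

theorem LIA_TD_C {k : Type} [Field k] (r : k) : TD2 0 (Polynomial.C (Polynomial.C r) : T2 k) := by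
  intro i j h
  rw [Polynomial.coeff_C] at h
  split_ifs at h with h1
  · rw [Polynomial.coeff_C] at h
    split_ifs at h with h2
    · omega
    · exact absurd rfl h
  · exact absurd (Polynomial.coeff_zero _) h

theorem LIA_TD_X {k : Type} [Field k] : TD2 1 (Polynomial.X : T2 k) := by
  intro i j h
  rw [Polynomial.coeff_X] at h
  split_ifs at h with h1
  · rw [Polynomial.coeff_one] at h
    split_ifs at h with h2
    · omega
    · exact absurd rfl h
  · exact absurd (Polynomial.coeff_zero _) h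

theorem LIA_TD_CX {k : Type} [Field k] : TD2 1 (Polynomial.C Polynomial.X : T2 k) := by
  intro i j h
  rw [Polynomial.coeff_C] at h
  split_ifs at h with h1
  · rw [Polynomial.coeff_X] at h
    split_ifs at h with h2
    · omega
    · exact absurd rfl h
  · exact absurd (Polynomial.coeff_zero _) h

theorem LIA_TD_pow {k : Type} [Field k] {A : T2 k} (hA : TD2 1 A) (n : ℕ) : TD2 n (A ^ n) := by
  induction n with
  | zero =>
    rw [pow_zero]
    have h := LIA_TD_C (k := k) 1
    rw [Polynomial.C_1, Polynomial.C_1] at h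
    exact h
  | succ n ih =>
    rw [pow_succ]
    exact LIA_TD_mul ih hA

/-- the substitution of `t` -/
noncomputable def LIAT {k : Type} [Field k] (c : k) : T2 k :=
  Polynomial.C Polynomial.X + Polynomial.C (Polynomial.C c) * Polynomial.X

theorem LIA_TD_T {k : Type} [Field k] (c : k) : TD2 1 (LIAT c) := by
  intro i j h
  unfold LIAT at h
  rw [Polynomial.coeff_add, Polynomial.coeff_add] at h
  by_cases h1 : ((Polynomial.C Polynomial.X : T2 k).coeff i).coeff j = 0
  · rw [h1, zero_add] at h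
    have h2 := LIA_TD_mul (LIA_TD_C c) (LIA_TD_X (k := k)) i j h
    omega
  · exact LIA_TD_CX i j h1

noncomputable def LIAg {k : Type} [Field k] (c : k) : Polynomial k →+* T2 k :=
  Polynomial.eval₂RingHom (Polynomial.C.comp Polynomial.C) (LIAT c)

noncomputable def LIAtau {k : Type} [Field k] (c : k) : T2 k →+* T2 k :=
  Polynomial.eval₂RingHom (LIAg c) Polynomial.X

theorem LIA_tau_TD {k : Type} [Field k] (c : k) {N : ℕ} {H : T2 k} (hH : TD2 N H) :
    TD2 N (LIAtau c H) := by
  have h1 : LIAtau c H = ∑ j ∈ H.support, (LIAg c (H.coeff j)) * Polynomial.X ^ j := by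
    unfold LIAtau
    rw [Polynomial.coe_eval₂RingHom, Polynomial.eval₂_eq_sum, Polynomial.sum_def]
  have h2 : ∀ p : Polynomial k, LIAg c p =
      ∑ l ∈ p.support, Polynomial.C (Polynomial.C (p.coeff l)) * LIAT c ^ l := by
    intro p
    unfold LIAg
    rw [Polynomial.coe_eval₂RingHom, Polynomial.eval₂_eq_sum, Polynomial.sum_def]
    rfl
  rw [h1]
  refine LIA_TD_sum _ _ fun j _ => ?_
  rw [h2, Finset.sum_mul]
  refine LIA_TD_sum _ _ fun l hl => ?_
  have h3 : (H.coeff j).coeff l ≠ 0 := Polynomial.mem_support_iff.1 hl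
  have h4 := hH j l h3
  refine LIA_TD_mono (m := 0 + l + j) (by omega) ?_
  exact LIA_TD_mul (LIA_TD_mul (LIA_TD_C _) (LIA_TD_pow (LIA_TD_T c) l)) (LIA_TD_pow LIA_TD_X j)

theorem LIA_tau_C {k : Type} [Field k] (c r : k) :
    LIAtau c (Polynomial.C (Polynomial.C r)) = Polynomial.C (Polynomial.C r) := by
  simp [LIAtau, LIAg]

/-- the new matrix -/
def LIAM {k : Type} [Field k] (M : Matrix (Fin 3) (Fin 3) k) (c : k) :
    Matrix (Fin 3) (Fin 3) k :=
  fun i => ![M i 0, M i 1 + c * M i 0, M i 2]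

theorem LIA_phi {k : Type} [Field k] (M : Matrix (Fin 3) (Fin 3) k) (c : k)
    (F : MvPolynomial (Fin 3) k) :
    phi (LIAM M c) F = Polynomial.mapRingHom (LIAtau c) (phi M F) := by
  induction F using MvPolynomial.induction_on with
  | C r =>
    have h1 : ∀ M' : Matrix (Fin 3) (Fin 3) k, phi M' (MvPolynomial.C r) =
        Polynomial.C (Polynomial.C (Polynomial.C r)) := by
      intro M'
      simp [phi]
    rw [h1, h1, Polynomial.coe_mapRingHom, Polynomial.map_C, LIA_tau_C]
  | add p q hp hq =>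
    rw [map_add, map_add, hp, hq, map_add]
  | mul_X p i hp =>
    rw [map_mul, map_mul, hp, map_mul]
    congr 1
    have h1 : ∀ M' : Matrix (Fin 3) (Fin 3) k, phi M' (MvPolynomial.X i) = lf M' i := by
      intro M'
      simp [phi]
    rw [h1, h1]
    unfold lf LIAM
    simp only [Matrix.cons_val_zero, Matrix.cons_val_one, Matrix.cons_val_two, Matrix.head_cons,
      Matrix.tail_cons]
    simp only [map_add, map_mul, Polynomial.coe_mapRingHom, Polynomial.map_C, Polynomial.map_X,
      LIA_tau_C]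
    have h2 : LIAtau c (Polynomial.C Polynomial.X) = LIAT c := by
      simp [LIAtau, LIAg]
    have h3 : LIAtau c Polynomial.X = Polynomial.X := by
      simp [LIAtau]
    rw [h2, h3]
    unfold LIAT
    simp only [map_add, map_mul]
    ring

theorem st_LIA : ST_LIA := by
  intro k _
  refine ⟨fun K _ _ M a b c F => LIA_ev M a b c F, fun M hM => ?_, fun M c d F hM hF => ?_⟩
  · have hu : IsUnit M.det := isUnit_iff_ne_zero.2 hM
    constructor
    · intro F G hFG
      rw [← LIA_inj M M⁻¹ (Matrix.mul_nonsing_inv M hu) F,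
        ← LIA_inj M M⁻¹ (Matrix.mul_nonsing_inv M hu) G, hFG]
    · intro G
      refine ⟨ev3 (LIAl M⁻¹ 0) (LIAl M⁻¹ 1) (LIAl M⁻¹ 2) G, ?_⟩
      have h := congrArg (fun f : T3 k →+* T3 k => f G)
        (LIA_surj M M⁻¹ (Matrix.nonsing_inv_mul M hu))
      exact h
  · refine ⟨LIAM M c, ?_, ⟨?_, ?_⟩, ?_⟩
    · have h : (LIAM M c).det = M.det := by
        rw [Matrix.det_fin_three, Matrix.det_fin_three]
        unfold LIAM
        simp only [Matrix.cons_val_zero, Matrix.cons_val_one, Matrix.cons_val_two,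
          Matrix.head_cons, Matrix.tail_cons]
        ring
      rw [h]
      exact hM
    · rw [LIA_phi]
      intro i j l h
      rw [Polynomial.coe_mapRingHom, Polynomial.coeff_map] at h
      have h0 : (phi M F).coeff i ≠ 0 := by
        intro h0
        rw [h0, map_zero] at h
        simp at h
      obtain ⟨j', hj'⟩ : ∃ j', ((phi M F).coeff i).coeff j' ≠ 0 := by
        by_contra hcon
        push Not at hcon
        exact h0 (Polynomial.ext fun n => by rw [hcon n, Polynomial.coeff_zero])
      obtain ⟨l', hl'⟩ : ∃ l', (((phi M F).coeff i).coeff j').coeff l' ≠ 0 := by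
        by_contra hcon
        push Not at hcon
        exact hj' (Polynomial.ext fun n => by rw [hcon n, Polynomial.coeff_zero])
      have hid := hF.1 i j' l' hl'
      have hTD : TD2 (d - i) ((phi M F).coeff i) := by
        intro a b hab
        have := hF.1 i a b hab
        omega
      have := LIA_tau_TD c hTD j l h
      omega
    · obtain ⟨c0, hc0, hc⟩ := hF.2
      refine ⟨c0, hc0, ?_⟩
      rw [LIA_phi, Polynomial.coe_mapRingHom, Polynomial.coeff_map, hc, LIA_tau_C]
    · intro K _ _ x y z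
      funext i
      unfold mv LIAM
      simp only [Matrix.cons_val_zero, Matrix.cons_val_one, Matrix.cons_val_two,
        Matrix.head_cons, Matrix.tail_cons, map_add, map_mul]
      ring

end Pool.Agent.Helper3.XP
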