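import Pool.Agent.Helper81.XP.StB

set_option autoImplicit false

/-! The product formula on a Galois orbit. -/

namespace Pool.Agent.Helper3.XP

open Pool.Agent.Helper81.XP Finset

/-- The orbit is finite. -/
theorem ORB_fin (k : Type) [Field k] (P : Fin 3 → Om k) :
    (Set.range fun σ : Om k ≃ₐ[RatFunc k] Om k => fun i => σ (P i)).Finite := by
  refine Set.Finite.subset (Set.Finite.pi' (t := fun i : Fin 3 =>
    (minpoly (RatFunc k) (P i)).rootSet (Om k)) fun i => Polynomial.rootSet_finite _ _) ?_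
  rintro _ ⟨σ, rfl⟩ i
  have hint : IsIntegral (RatFunc k) (P i) := Algebra.IsIntegral.isIntegral _
  rw [Polynomial.mem_rootSet]
  refine ⟨minpoly.ne_zero hint, ?_⟩
  have h := Polynomial.aeval_algHom_apply (σ : Om k →ₐ[RatFunc k] Om k) (P i)
    (minpoly (RatFunc k) (P i))
  rw [minpoly.aeval, map_zero] at h
  exact h

/-- Values of polynomials at integral points are integral. -/
theorem ORB_int (k : Type) [Field k] (Q : Fin 3 → Om k)
    (hQ : ∀ i, IsIntegral (Polynomial k) (Q i)) (Φ : MvPolynomial (Fin 3) k) :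
    IsIntegral (Polynomial k) (MvPolynomial.aeval Q Φ) := by
  induction Φ using MvPolynomial.induction_on with
  | C c =>
    rw [MvPolynomial.aeval_C]
    have h : algebraMap k (Om k) c = algebraMap (Polynomial k) (Om k) (Polynomial.C c) := by
      rw [IsScalarTower.algebraMap_apply k (Polynomial k) (Om k)]
      rfl
    rw [h]
    exact isIntegral_algebraMap
  | add p q hp hq =>
    rw [map_add]
    exact hp.add hq
  | mul_X p i hp =>
    rw [map_mul, MvPolynomial.aeval_X]
    exact hp.mul (hQ i)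

theorem ORB_map (k : Type) [Field k] (Q : Fin 3 → Om k) (σ : Om k ≃ₐ[RatFunc k] Om k)
    (Φ : MvPolynomial (Fin 3) k) :
    σ (MvPolynomial.aeval Q Φ) = MvPolynomial.aeval (fun i => σ (Q i)) Φ := by
  have h := MvPolynomial.comp_aeval_apply (R := k) (f := Q)
    ((σ.restrictScalars k : Om k ≃ₐ[k] Om k) : Om k →ₐ[k] Om k) Φ
  exact h

theorem st_ORB (hI : ST_INT) (hV : ST_VAI) : ST_ORB := by
  classical
  intro k _ P hP
  have hfin := ORB_fin k P
  refine ⟨hfin.toFinset, ?_, ?_, ?_⟩
  · rw [Set.Finite.mem_toFinset]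
    exact ⟨AlgEquiv.refl, rfl⟩
  · intro Q
    rw [Set.Finite.mem_toFinset]
    constructor
    · rintro ⟨σ, rfl⟩
      exact ⟨σ, rfl⟩
    · rintro ⟨σ, rfl⟩
      exact ⟨σ, rfl⟩
  · intro O hO Φ hΦ
    obtain ⟨_, h1, h2⟩ := (hV k).2 O hO
    set a : Om k := ∏ Q ∈ hfin.toFinset, MvPolynomial.aeval Q Φ with ha
    have hmem : ∀ Q, Q ∈ hfin.toFinset ↔ ∃ σ : Om k ≃ₐ[RatFunc k] Om k, Q = fun i => σ (P i) := by
      intro Q
      rw [Set.Finite.mem_toFinset]
      constructor
      · rintro ⟨σ, rfl⟩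
        exact ⟨σ, rfl⟩
      · rintro ⟨σ, rfl⟩
        exact ⟨σ, rfl⟩
    have ha0 : a ≠ 0 := by
      rw [ha, Finset.prod_ne_zero_iff]
      intro Q hQ
      obtain ⟨σ, rfl⟩ := (hmem Q).1 hQ
      rw [← ORB_map]
      intro h0
      exact hΦ ((map_eq_zero σ).1 h0)
    have haint : IsIntegral (Polynomial k) a := by
      refine IsIntegral.prod _ fun Q hQ => ?_
      obtain ⟨σ, rfl⟩ := (hmem Q).1 hQ
      refine ORB_int k _ (fun i => ?_) Φ
      exact (hP i).map ((σ.restrictScalars (Polynomial k) : Om k ≃ₐ[Polynomial k] Om k) :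
        Om k →ₐ[Polynomial k] Om k)
    have hafix : ∀ σ : Om k ≃ₐ[RatFunc k] Om k, σ a = a := by
      intro σ
      rw [ha, map_prod]
      refine Finset.prod_nbij' (fun Q => fun i => σ (Q i)) (fun Q => fun i => σ.symm (Q i))
        ?_ ?_ ?_ ?_ ?_
      · intro Q hQ
        obtain ⟨τ, rfl⟩ := (hmem Q).1 hQ
        exact (hmem _).2 ⟨τ.trans σ, rfl⟩
      · intro Q hQ
        obtain ⟨τ, rfl⟩ := (hmem Q).1 hQ
        exact (hmem _).2 ⟨τ.trans σ.symm, rfl⟩
      · intro Q _
        funext i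
        simp
      · intro Q _
        funext i
        simp
      · intro Q _
        exact ORB_map k Q σ Φ
    obtain ⟨⟨m, hm, q, hq⟩, _⟩ := hI k a haint hafix
    have hq0 : q ≠ 0 := by
      rintro rfl
      rw [map_zero] at hq
      exact ha0 (pow_eq_zero_iff (by omega) |>.1 hq)
    have hv : 1 ≤ O.valuation a ^ m := by
      rw [← map_pow, hq, h2 q hq0]
      exact one_le_pow₀ h1.le
    have hv1 : 1 ≤ O.valuation a := by
      by_contra hcon
      push Not at hcon
      exact absurd hv (not_le.2 (pow_lt_one₀ zero_le hcon (by omega)))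
    rw [ha, map_prod] at hv1
    exact hv1

end Pool.Agent.Helper3.XP
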