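import Pool.Agent.Helper81.XP.StA

set_option autoImplicit false

/-! Quasirandomness. -/

namespace Pool.Agent.Helper3.XP

open Pool.Agent.Helper81.XP Finset

open scoped InnerProductSpace ComplexConjugate

/-- The largest singular value. -/
theorem QSR_sing {V F : Type} [NormedAddCommGroup V] [InnerProductSpace ℂ V]
    [FiniteDimensional ℂ V] [NormedAddCommGroup F] [InnerProductSpace ℂ F]
    [FiniteDimensional ℂ F] [Nontrivial V] (T : V →ₗ[ℂ] F) :
    ∃ (lam : ℝ) (v : V), v ≠ 0 ∧ (∀ w, ⟪T v, T w⟫_ℂ = lam * ⟪v, w⟫_ℂ) ∧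
      ∀ w, ‖T w‖ ^ 2 ≤ lam * ‖w‖ ^ 2 := by
  set B : V →ₗ[ℂ] V := LinearMap.adjoint T ∘ₗ T with hB
  have hBi : ∀ x y, ⟪B x, y⟫_ℂ = ⟪T x, T y⟫_ℂ := by
    intro x y
    rw [hB, LinearMap.comp_apply, LinearMap.adjoint_inner_left]
  have hsym : B.IsSymmetric := by
    intro x y
    rw [hBi, ← inner_conj_symm x (B y), hBi, inner_conj_symm]
  have heig := hsym.hasEigenvalue_iSup_of_finiteDimensional
  set lam : ℝ := ⨆ x : { x : V // x ≠ 0 }, RCLike.re ⟪B x, x⟫_ℂ / ‖(x : V)‖ ^ 2 with hlam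
  obtain ⟨v, hv⟩ := heig.exists_hasEigenvector
  refine ⟨lam, v, hv.2, fun w => ?_, fun w => ?_⟩
  · have h1 : B v = ((lam : ℝ) : ℂ) • v := hv.apply_eq_smul
    rw [← hBi, h1, inner_smul_left, Complex.conj_ofReal]
  · by_cases hw : w = 0
    · subst hw
      simp
    · have hbdd : BddAbove (Set.range fun x : { x : V // x ≠ 0 } =>
          RCLike.re ⟪B x, x⟫_ℂ / ‖(x : V)‖ ^ 2) := by
        refine ⟨‖LinearMap.toContinuousLinearMap T‖ ^ 2, ?_⟩
        rintro _ ⟨⟨x, hx⟩, rfl⟩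
        have hx0 : 0 < ‖x‖ := norm_pos_iff.2 hx
        show RCLike.re ⟪B x, x⟫_ℂ / ‖x‖ ^ 2 ≤ _
        rw [div_le_iff₀ (by positivity), hBi, inner_self_eq_norm_sq, ← mul_pow]
        have h2 := (LinearMap.toContinuousLinearMap T).le_opNorm x
        exact pow_le_pow_left₀ (norm_nonneg _) h2 2
      have h1 : RCLike.re ⟪B w, w⟫_ℂ / ‖w‖ ^ 2 ≤ lam := le_ciSup hbdd ⟨w, hw⟩
      have hw0 : 0 < ‖w‖ := norm_pos_iff.2 hw
      rw [div_le_iff₀ (by positivity), hBi, inner_self_eq_norm_sq] at h1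
      exact h1

section grp

variable {G : Type} [Group G] [Fintype G]

/-- convolution operator -/
noncomputable def QSRT (ν : G → ℝ) : EuclideanSpace ℂ G →ₗ[ℂ] EuclideanSpace ℂ G where
  toFun f := WithLp.toLp 2 fun x => ∑ y, (ν y : ℂ) * f (y⁻¹ * x)
  map_add' f g := by
    ext x
    simp [mul_add, Finset.sum_add_distrib]
  map_smul' c f := by
    ext x
    simp only [PiLp.smul_apply, smul_eq_mul, RingHom.id_apply, Finset.mul_sum]
    exact Finset.sum_congr rfl fun y _ => by ring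

theorem QSRT_apply (ν : G → ℝ) (f : EuclideanSpace ℂ G) (x : G) :
    QSRT ν f x = ∑ y, (ν y : ℂ) * f (y⁻¹ * x) := rfl

/-- right translation -/
noncomputable def QSRr (g : G) (f : EuclideanSpace ℂ G) : EuclideanSpace ℂ G :=
  WithLp.toLp 2 fun x => f (x * g)

omit [Fintype G] in
theorem QSRr_apply (g : G) (f : EuclideanSpace ℂ G) (x : G) : QSRr g f x = f (x * g) := rfl

theorem QSR_comm (ν : G → ℝ) (g : G) (f : EuclideanSpace ℂ G) :
    QSRT ν (QSRr g f) = QSRr g (QSRT ν f) := by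
  ext x
  rw [QSRT_apply, QSRr_apply, QSRT_apply]
  exact Finset.sum_congr rfl fun y _ => by rw [QSRr_apply, mul_assoc]

omit [Group G] in
theorem QSR_inner (f h : EuclideanSpace ℂ G) : ⟪f, h⟫_ℂ = ∑ x, h x * conj (f x) := by
  rw [PiLp.inner_apply]
  rfl

theorem QSR_adj (g : G) (f h : EuclideanSpace ℂ G) : ⟪QSRr g f, h⟫_ℂ = ⟪f, QSRr g⁻¹ h⟫_ℂ := by
  rw [QSR_inner, QSR_inner, ← Equiv.sum_comp (Equiv.mulRight g⁻¹)]
  refine Finset.sum_congr rfl fun x _ => ?_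
  rw [QSRr_apply, QSRr_apply, Equiv.coe_mulRight, inv_mul_cancel_right]

/-- mean zero functions -/
noncomputable def QSRV : Submodule ℂ (EuclideanSpace ℂ G) where
  carrier := {f | ∑ x, f x = 0}
  add_mem' := by
    intro f g hf hg
    show ∑ x, (f x + g x) = 0
    rw [Finset.sum_add_distrib, hf, hg, add_zero]
  zero_mem' := by
    show ∑ x : G, (0 : ℂ) = 0
    simp
  smul_mem' := by
    intro c f hf
    show ∑ x, c * f x = 0
    rw [← Finset.mul_sum, hf, mul_zero]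

omit [Group G] in
theorem QSRV_mem (f : EuclideanSpace ℂ G) : f ∈ (QSRV : Submodule ℂ (EuclideanSpace ℂ G)) ↔
    ∑ x, f x = 0 := Iff.rfl

theorem QSRV_r (g : G) (f : EuclideanSpace ℂ G)
    (hf : f ∈ (QSRV : Submodule ℂ (EuclideanSpace ℂ G))) :
    QSRr g f ∈ (QSRV : Submodule ℂ (EuclideanSpace ℂ G)) := by
  rw [QSRV_mem] at hf ⊢
  rw [← hf]
  exact Equiv.sum_comp (Equiv.mulRight g) (fun x => f x)

/-- the eigenspace -/
noncomputable def QSRW (ν : G → ℝ) (lam : ℝ) : Submodule ℂ (EuclideanSpace ℂ G) where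
  carrier := {f | f ∈ (QSRV : Submodule ℂ (EuclideanSpace ℂ G)) ∧
    ∀ h ∈ (QSRV : Submodule ℂ (EuclideanSpace ℂ G)), ⟪QSRT ν f, QSRT ν h⟫_ℂ = lam * ⟪f, h⟫_ℂ}
  add_mem' := by
    rintro f g ⟨hf1, hf2⟩ ⟨hg1, hg2⟩
    refine ⟨Submodule.add_mem _ hf1 hg1, fun h hh => ?_⟩
    rw [map_add, inner_add_left, inner_add_left, hf2 h hh, hg2 h hh, mul_add]
  zero_mem' := by
    refine ⟨Submodule.zero_mem _, fun h _ => ?_⟩
    rw [map_zero, inner_zero_left, inner_zero_left, mul_zero]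
  smul_mem' := by
    rintro c f ⟨hf1, hf2⟩
    refine ⟨Submodule.smul_mem _ c hf1, fun h hh => ?_⟩
    rw [map_smul, inner_smul_left, inner_smul_left, hf2 h hh]
    ring

theorem QSRW_r (ν : G → ℝ) (lam : ℝ) (g : G) (f : EuclideanSpace ℂ G) (hf : f ∈ QSRW ν lam) :
    QSRr g f ∈ QSRW ν lam := by
  refine ⟨QSRV_r g f hf.1, fun h hh => ?_⟩
  rw [QSR_comm, QSR_adj, QSR_adj, ← QSR_comm]
  exact hf.2 _ (QSRV_r g⁻¹ h hh)

theorem QSR_bessel (ν : G → ℝ) (lam : ℝ) :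
    (Module.finrank ℂ (QSRW (G := G) ν lam) : ℝ) * lam ≤ (Nat.card G : ℝ) * N2 ν := by
  classical
  set b := stdOrthonormalBasis ℂ (QSRW (G := G) ν lam) with hb
  have hon : Orthonormal ℂ fun i => ((b i : QSRW (G := G) ν lam) : EuclideanSpace ℂ G) :=
    b.orthonormal.comp_linearIsometry (QSRW (G := G) ν lam).subtypeₗᵢ
  let vy : G → EuclideanSpace ℂ G := fun y => WithLp.toLp 2 fun z => (ν (y * z⁻¹) : ℂ)
  have hT : ∀ (f : EuclideanSpace ℂ G) (y : G), QSRT ν f y = ⟪vy y, f⟫_ℂ := by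
    intro f y
    rw [QSR_inner, QSRT_apply,
      ← Equiv.sum_comp (((Equiv.inv G).trans (Equiv.mulLeft y)))]
    refine Finset.sum_congr rfl fun z _ => ?_
    show (ν (y * z⁻¹) : ℂ) * f ((y * z⁻¹)⁻¹ * y) = f z * conj ((ν (y * z⁻¹) : ℂ))
    rw [Complex.conj_ofReal, mul_inv_rev, inv_inv, inv_mul_cancel_right, mul_comm]
  have hvy : ∀ y, ‖vy y‖ ^ 2 = N2 ν := by
    intro y
    have h5 := Equiv.sum_comp (((Equiv.inv G).trans (Equiv.mulLeft y))) (fun z => ν z ^ 2)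
    rw [EuclideanSpace.norm_sq_eq]
    unfold N2
    rw [← h5]
    refine Finset.sum_congr rfl fun z _ => ?_
    show ‖(ν (y * z⁻¹) : ℂ)‖ ^ 2 = ν (y * z⁻¹) ^ 2
    rw [Complex.norm_real, Real.norm_eq_abs, sq_abs]
  have h1 : ∀ i, ‖QSRT ν (b i)‖ ^ 2 = lam := by
    intro i
    have h2 := (b i).2.2 (b i) (b i).2.1
    rw [inner_self_eq_norm_sq_to_K, inner_self_eq_norm_sq_to_K] at h2
    have h3 : ‖((b i : QSRW (G := G) ν lam) : EuclideanSpace ℂ G)‖ = 1 := hon.1 i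
    rw [h3] at h2
    have h4 : ((‖QSRT ν (b i)‖ ^ 2 : ℝ) : ℂ) = ((lam : ℝ) : ℂ) := by
      push_cast
      simpa using h2
    exact_mod_cast h4
  calc (Module.finrank ℂ (QSRW (G := G) ν lam) : ℝ) * lam
      = ∑ i : Fin (Module.finrank ℂ (QSRW (G := G) ν lam)), ‖QSRT ν (b i)‖ ^ 2 := by
        rw [Finset.sum_congr rfl fun i _ => h1 i, Finset.sum_const, Finset.card_univ,
          Fintype.card_fin, nsmul_eq_mul]
    _ = ∑ i, ∑ y, ‖⟪((b i : QSRW (G := G) ν lam) : EuclideanSpace ℂ G), vy y⟫_ℂ‖ ^ 2 := by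
        refine Finset.sum_congr rfl fun i _ => ?_
        rw [EuclideanSpace.norm_sq_eq]
        refine Finset.sum_congr rfl fun y _ => ?_
        rw [hT, norm_inner_symm]
    _ = ∑ y, ∑ i, ‖⟪((b i : QSRW (G := G) ν lam) : EuclideanSpace ℂ G), vy y⟫_ℂ‖ ^ 2 :=
        Finset.sum_comm
    _ ≤ ∑ y : G, N2 ν := by
        refine Finset.sum_le_sum fun y _ => ?_
        rw [← hvy y]
        exact hon.sum_inner_products_le (vy y)
    _ = (Nat.card G : ℝ) * N2 ν := by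
        rw [Finset.sum_const, Finset.card_univ, nsmul_eq_mul, Nat.card_eq_fintype_card]

end grp

theorem st_QSR (hD : ST_DIM) : ST_QSR := by
  classical
  intro p _ hp ν f hf
  set fC : EuclideanSpace ℂ (SL (ZMod p)) := WithLp.toLp 2 fun x => (f x : ℂ) with hfC
  have hfCm : fC ∈ (QSRV : Submodule ℂ (EuclideanSpace ℂ (SL (ZMod p)))) := by
    rw [QSRV_mem]
    show ∑ x, (f x : ℂ) = 0
    exact_mod_cast hf
  have hnf : ‖fC‖ ^ 2 = N2 f := by
    rw [EuclideanSpace.norm_sq_eq]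
    unfold N2
    refine Finset.sum_congr rfl fun z _ => ?_
    show ‖(f z : ℂ)‖ ^ 2 = f z ^ 2
    rw [Complex.norm_real, Real.norm_eq_abs, sq_abs]
  have hnT : ‖QSRT ν fC‖ ^ 2 = N2 (cv ν f) := by
    rw [EuclideanSpace.norm_sq_eq]
    unfold N2
    refine Finset.sum_congr rfl fun z _ => ?_
    have : QSRT ν fC z = ((cv ν f z : ℝ) : ℂ) := by
      rw [QSRT_apply]
      unfold cv
      push_cast
      rfl
    rw [this, Complex.norm_real, Real.norm_eq_abs, sq_abs]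
  by_cases h0 : fC = 0
  · have h1 : N2 (cv ν f) = 0 := by
      rw [← hnT, h0, map_zero, norm_zero]
      norm_num
    rw [h1, mul_zero]
    unfold N2
    positivity
  · have : Nontrivial (QSRV : Submodule ℂ (EuclideanSpace ℂ (SL (ZMod p)))) :=
      ⟨⟨⟨fC, hfCm⟩, 0, fun h => h0 (congrArg Subtype.val h)⟩⟩
    let T0 : (QSRV : Submodule ℂ (EuclideanSpace ℂ (SL (ZMod p)))) →ₗ[ℂ]
        EuclideanSpace ℂ (SL (ZMod p)) := (QSRT ν).comp (Submodule.subtype _)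
    obtain ⟨lam, v, hv0, hv, hlam⟩ := QSR_sing
      (V := (QSRV : Submodule ℂ (EuclideanSpace ℂ (SL (ZMod p)))))
      (F := EuclideanSpace ℂ (SL (ZMod p))) T0
    have hvW : (v : EuclideanSpace ℂ (SL (ZMod p))) ∈ QSRW ν lam := ⟨v.2, fun h hh => hv ⟨h, hh⟩⟩
    have h2 : N2 (cv ν f) ≤ lam * N2 f := by
      rw [← hnT, ← hnf]
      exact hlam ⟨fC, hfCm⟩
    have hf0 : 0 < N2 f := by
      rw [← hnf]
      have : 0 < ‖fC‖ := norm_pos_iff.2 h0
      positivity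
    have hN : 0 ≤ N2 (cv ν f) := by
      unfold N2
      positivity
    have hlam0 : 0 ≤ lam := by
      by_contra hcon
      push Not at hcon
      have := mul_neg_of_neg_of_pos hcon hf0
      linarith
    have hdim := hD p hp ((QSRW ν lam).map (WithLp.linearEquiv 2 ℂ (SL (ZMod p) → ℂ)).toLinearMap)
      (by
        intro hbot
        have h9 : (WithLp.linearEquiv 2 ℂ (SL (ZMod p) → ℂ)).toLinearMap
            (v : EuclideanSpace ℂ (SL (ZMod p))) ∈
            (QSRW ν lam).map (WithLp.linearEquiv 2 ℂ (SL (ZMod p) → ℂ)).toLinearMap :=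
          ⟨_, hvW, rfl⟩
        rw [hbot, Submodule.mem_bot] at h9
        have h10 : (v : EuclideanSpace ℂ (SL (ZMod p))) = 0 :=
          (WithLp.linearEquiv 2 ℂ (SL (ZMod p) → ℂ)).map_eq_zero_iff.1 h9
        exact hv0 (Subtype.ext h10))
      (by
        rintro _ ⟨h, hh, rfl⟩ g
        exact ⟨QSRr g h, QSRW_r ν lam g h hh, rfl⟩)
      (by
        rintro _ ⟨h, hh, rfl⟩
        exact hh.1)
    rw [LinearEquiv.finrank_map_eq] at hdim
    have hB := QSR_bessel (G := SL (ZMod p)) ν lam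
    have hdim' : (p : ℝ) - 1 ≤ 2 * (Module.finrank ℂ (QSRW (G := SL (ZMod p)) ν lam) : ℝ) := by
      have h3 : p ≤ 2 * Module.finrank ℂ (QSRW (G := SL (ZMod p)) ν lam) + 1 :=
        Nat.sub_le_iff_le_add.1 hdim
      have h4 : (p : ℝ) ≤ 2 * (Module.finrank ℂ (QSRW (G := SL (ZMod p)) ν lam) : ℝ) + 1 := by
        exact_mod_cast h3
      linarith
    have hp1 : (0 : ℝ) ≤ (p : ℝ) - 1 := by
      have : (5 : ℝ) ≤ p := by exact_mod_cast hp
      linarith
    calc ((p : ℝ) - 1) * N2 (cv ν f) ≤ ((p : ℝ) - 1) * (lam * N2 f) :=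
          mul_le_mul_of_nonneg_left h2 hp1
      _ ≤ (2 * (Module.finrank ℂ (QSRW (G := SL (ZMod p)) ν lam) : ℝ)) * (lam * N2 f) :=
          mul_le_mul_of_nonneg_right hdim' (mul_nonneg hlam0 hf0.le)
      _ = 2 * ((Module.finrank ℂ (QSRW (G := SL (ZMod p)) ν lam) : ℝ) * lam) * N2 f := by ring
      _ ≤ 2 * ((Nat.card (SL (ZMod p)) : ℝ) * N2 ν) * N2 f := by
          refine mul_le_mul_of_nonneg_right ?_ hf0.le
          linarith
      _ = 2 * (Nat.card (SL (ZMod p)) : ℝ) * N2 ν * N2 f := by ring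

end Pool.Agent.Helper3.XP
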