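import Pool.Agent.Helper81.XP.StB

set_option autoImplicit false

/-! The double commutator of four words vanishes iff four polynomials vanish. -/

namespace Pool.Agent.Helper3.XP

open Pool.Agent.Helper81.XP Finset

/-- the involution of the letters -/
def WPLi : Fin 5 → Fin 5 := ![0, 2, 1, 4, 3]

/-- value of a list of letters -/
def WPLv {G : Type} [Group G] (a b : G) (l : List (Fin 5)) : G := (l.map (lt a b)).prod

/-- inverse list -/
def WPLn (l : List (Fin 5)) : List (Fin 5) := (l.map WPLi).reverse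

/-- commutator list -/
def WPLc (l m : List (Fin 5)) : List (Fin 5) := l ++ m ++ WPLn l ++ WPLn m

theorem WPL_lt {G : Type} [Group G] (a b : G) (i : Fin 5) : lt a b (WPLi i) = (lt a b i)⁻¹ := by
  fin_cases i <;> simp [lt, WPLi]

theorem WPL_n {G : Type} [Group G] (a b : G) (l : List (Fin 5)) :
    WPLv a b (WPLn l) = (WPLv a b l)⁻¹ := by
  unfold WPLv WPLn
  rw [List.prod_inv_reverse, List.map_reverse, List.map_map, List.map_map]
  congr 2
  exact List.map_congr_left fun i _ => WPL_lt a b i

theorem WPL_app {G : Type} [Group G] (a b : G) (l m : List (Fin 5)) :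
    WPLv a b (l ++ m) = WPLv a b l * WPLv a b m := by
  unfold WPLv
  rw [List.map_append, List.prod_append]

theorem WPL_c {G : Type} [Group G] (a b : G) (l m : List (Fin 5)) :
    WPLv a b (WPLc l m) = ct (WPLv a b l) (WPLv a b m) := by
  unfold WPLc ct
  rw [WPL_app, WPL_app, WPL_app, WPL_n, WPL_n]

theorem WPL_len (l m : List (Fin 5)) : (WPLc l m).length = 2 * (l.length + m.length) := by
  unfold WPLc WPLn
  simp only [List.length_append, List.length_reverse, List.length_map]
  ring

theorem WPL_wd {G : Type} [Group G] (a b : G) {n : ℕ} (w : Fin n → Fin 5) :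
    wd a b w = WPLv a b (List.ofFn w) := by
  unfold wd WPLv
  rw [List.map_ofFn]
  rfl

theorem WPL_word (n : ℕ) (u : Fin 4 → Fin n → Fin 5) : ∃ w : Fin (16 * n) → Fin 5,
    ∀ (G : Type) [Group G] (a b : G), dw a b u = wd a b w := by
  have h1 : ∀ (L : List (Fin 5)) (m : ℕ), L.length = m → ∃ w : Fin m → Fin 5,
      List.ofFn w = L := by
    rintro L _ rfl
    exact ⟨L.get, List.ofFn_get L⟩
  obtain ⟨w, hw⟩ := h1 (WPLc (WPLc (List.ofFn (u 0)) (List.ofFn (u 1)))
    (WPLc (List.ofFn (u 2)) (List.ofFn (u 3)))) (16 * n) (by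
      rw [WPL_len, WPL_len, WPL_len]
      simp only [List.length_ofFn]
      ring)
  refine ⟨w, fun G _ a b => ?_⟩
  rw [WPL_wd, hw, WPL_c, WPL_c, WPL_c, ← WPL_wd, ← WPL_wd, ← WPL_wd, ← WPL_wd]
  rfl

theorem st_WPL (hP : ST_PWD) : ST_WPL := by
  intro k _ n u
  obtain ⟨w, hw⟩ := WPL_word n u
  obtain ⟨F, hF1, hF2⟩ := hP k (16 * n) w
  have hX : (MvPolynomial.X 2 ^ (16 * n) : MvPolynomial (Fin 3) k).totalDegree ≤ 32 * n := by
    rw [MvPolynomial.totalDegree_X_pow]
    omega
  have hF1' : ∀ i j, (F i j).totalDegree ≤ 32 * n := by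
    intro i j
    have := hF1 i j
    omega
  refine ⟨![F 0 0 - MvPolynomial.X 2 ^ (16 * n), F 0 1, F 1 0,
    F 1 1 - MvPolynomial.X 2 ^ (16 * n)], ?_, ?_⟩
  · intro i
    fin_cases i
    · exact (MvPolynomial.totalDegree_sub _ _).trans (max_le (hF1' 0 0) hX)
    · exact hF1' 0 1
    · exact hF1' 1 0
    · exact (MvPolynomial.totalDegree_sub _ _).trans (max_le (hF1' 1 1) hX)
  · intro K _ _ P hP2
    have hp : P 2 ^ (16 * n) ≠ 0 := pow_ne_zero _ hP2
    have h := hF2 K P hP2
    rw [hw]
    have e00 := h 0 0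
    have e01 := h 0 1
    have e10 := h 1 0
    have e11 := h 1 1
    constructor
    · intro h1 i
      rw [h1] at e00 e01 e10 e11
      simp only [Matrix.SpecialLinearGroup.coe_one, Matrix.one_apply_eq, mul_one] at e00 e11
      rw [Matrix.SpecialLinearGroup.coe_one, Matrix.one_apply_ne (by decide), mul_zero] at e01 e10
      fin_cases i
      · show MvPolynomial.aeval P (F 0 0 - MvPolynomial.X 2 ^ (16 * n)) = 0
        rw [map_sub, map_pow, MvPolynomial.aeval_X, ← e00, sub_self]
      · exact e01.symm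
      · exact e10.symm
      · show MvPolynomial.aeval P (F 1 1 - MvPolynomial.X 2 ^ (16 * n)) = 0
        rw [map_sub, map_pow, MvPolynomial.aeval_X, ← e11, sub_self]
    · intro h1
      have a0 : MvPolynomial.aeval P (F 0 0 - MvPolynomial.X 2 ^ (16 * n)) = 0 := h1 0
      have a1 : MvPolynomial.aeval P (F 0 1) = 0 := h1 1
      have a2 : MvPolynomial.aeval P (F 1 0) = 0 := h1 2
      have a3 : MvPolynomial.aeval P (F 1 1 - MvPolynomial.X 2 ^ (16 * n)) = 0 := h1 3
      rw [map_sub, map_pow, MvPolynomial.aeval_X, sub_eq_zero] at a0 a3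
      rw [a0] at e00
      rw [a1] at e01
      rw [a2] at e10
      rw [a3] at e11
      have b00 := mul_left_cancel₀ hp (e00.trans (mul_one _).symm)
      have b11 := mul_left_cancel₀ hp (e11.trans (mul_one _).symm)
      have b01 := (mul_eq_zero.1 e01).resolve_left hp
      have b10 := (mul_eq_zero.1 e10).resolve_left hp
      ext i j
      fin_cases i <;> fin_cases j
      · simpa using b00
      · simpa using b01
      · simpa using b10
      · simpa using b11

end Pool.Agent.Helper3.XP
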